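import Pool.Agent.H678R3.BSD.FNorm

/-!
# The Birch–Swinnerton-Dyer product over `F_q(T)` in families with marked points

For the cubic `P = t³ + a t² + b t + c` over `F_q[T]` with `P(0) = V`, `P(1) = W` (so `c = V`,
`b = W - 1 - a - V`) the families are: `(V, W) = (v, w)` (`j = 0`), `(v², w)` (`j = 1`) and
`(v², w²)` (`j = 2`), with parameters `n = (a, v, w)`, three polynomials of degree `< N`.  The curve
`y² = P(t)` over `F_q(T)` has `j` marked integral points `(0, v)`, `(1, w)`.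
`EPF j n m` is the product of `#C(F_π) / |π|` over the monic irreducible `π` of degree `≤ m` which
do not divide the discriminant of `P`: the inverse of the truncated Euler product of `L(T, C)` at
`T = 1 / q`.
-/

set_option autoImplicit false

open Finset Polynomial Pool.Agent.H678R3.BSD.FF

namespace Pool.Agent.Results.MP_48b749_nt.FamilyNormalOrder

open Classical in
theorem result {k : Type*} [Field k] [Fintype k] (hk : ringChar k ≠ 2) (j : ℕ) (hj : j ≤ 2)
    (m N : ℕ) (hN : 2 * m ≤ N) :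
    ∑ n ∈ boxF k N, (Real.log (EPF j n m) - ((j : ℝ) + 1 / 2) * SF k m) ^ 2 ≤
      (2 * 48 ^ 2 * SF k m + 2 * 6000 ^ 2) * ((Nat.card k : ℝ) ^ N) ^ 3 ∧
    (0 < SF k m → ∀ δ : ℝ, 0 < δ →
      (((boxF k N).filter fun n => ¬ (Real.exp (((j : ℝ) + 1 / 2 - δ) * SF k m) ≤ EPF j n m ∧
        EPF j n m ≤ Real.exp (((j : ℝ) + 1 / 2 + δ) * SF k m))).card : ℝ) ≤
        (2 * 48 ^ 2 * SF k m + 2 * 6000 ^ 2) / (δ * SF k m) ^ 2 * ((Nat.card k : ℝ) ^ N) ^ 3) :=
  ⟨mean_squareF hk j hj m N hN, fun hS δ hδ => normal_orderF hk j hj m N hN hS δ hδ⟩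

end Pool.Agent.Results.MP_48b749_nt.FamilyNormalOrder
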